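import Pool.Agent.E8helper27.CB.Stm3

/-!
# Piece SPHS
-/

set_option autoImplicit false

namespace E8h27.CB

namespace H54S

open Finset

variable {m : ℕ}

lemma succ_val (i : Fin (2 * m + 5)) :
    ((i + 1 : Fin (2 * m + 5)) : ℕ) = if (i : ℕ) = 2 * m + 4 then 0 else (i : ℕ) + 1 := by
  have h := Fin.val_add_one (n := 2 * m + 4) i
  by_cases hi : (i : ℕ) = 2 * m + 4
  · rw [if_pos hi]
    rw [if_pos (Fin.ext (by rw [hi, Fin.val_last]))] at h
    exact h
  · rw [if_neg hi]
    rw [if_neg (fun e => hi (by rw [e, Fin.val_last]))] at h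
    exact h

lemma half_pi_le {x : ℝ} (h : x ≤ 0) : Real.pi / 2 ≤ Real.arccos x := by
  have := Real.antitone_arccos h
  rwa [Real.arccos_zero] at this

/-- the sign -/
noncomputable def sg (x : ℝ) : ℝ := if 0 ≤ x then 1 else -1

lemma sg_or (x : ℝ) : sg x = 1 ∨ sg x = -1 := by
  unfold sg
  split_ifs
  · exact Or.inl rfl
  · exact Or.inr rfl

lemma sg_mul (x : ℝ) : sg x * x = |x| := by
  unfold sg
  split_ifs with h
  · rw [one_mul, abs_of_nonneg h]
  · rw [abs_of_neg (not_le.1 h)]
    ring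

/-- the partial products of the signs -/
noncomputable def P (R : Fin (2 * m + 5) → Fin (2 * m + 5) → ℝ) : ℕ → ℝ
  | 0 => 1
  | k + 1 => P R k * (if h : k < 2 * m + 5 then sg (R ⟨k, h⟩ (⟨k, h⟩ + 1)) else 1)

lemma P_or (R : Fin (2 * m + 5) → Fin (2 * m + 5) → ℝ) (k : ℕ) : P R k = 1 ∨ P R k = -1 := by
  induction k with
  | zero => exact Or.inl rfl
  | succ k ih =>
    unfold P
    split_ifs with h
    · rcases ih with h1 | h1 <;> rcases sg_or (R ⟨k, h⟩ (⟨k, h⟩ + 1)) with h2 | h2 <;>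
        rw [h1, h2] <;> norm_num
    · rw [mul_one]
      exact ih

end H54S

open Finset H54S in
theorem t_SPHS (hANG : S_ANG) : S_SPHS := by
  intro m R hP hd hn
  set z : Fin (2 * m + 5) → ℝ := fun i => P R (i : ℕ) with hz
  have hz1 : ∀ i, z i = 1 ∨ z i = -1 := fun i => P_or R _
  have hzz : ∀ i, z i * z i = 1 := by
    intro i
    rcases hz1 i with h | h <;> rw [h] <;> norm_num
  set R' : Fin (2 * m + 5) → Fin (2 * m + 5) → ℝ := fun i j => z i * z j * R i j with hR'
  have hP' : Psd R' := by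
    refine ⟨fun i j => ?_, fun x => ?_⟩
    · simp only [hR']
      rw [hP.1 i j]
      ring
    · have := hP.2 (fun i => z i * x i)
      refine this.trans (le_of_eq ?_)
      refine sum_congr rfl fun i _ => sum_congr rfl fun j _ => ?_
      simp only [hR']
      ring
  have hd' : ∀ i, R' i i = 1 := by
    intro i
    simp only [hR']
    rw [hzz, hd, one_mul]
  have hA := hANG (Fin (2 * m + 5)) R' hP' hd'
  -- consecutive vertices of the path
  have hstep : ∀ i : Fin (2 * m + 5), (i : ℕ) ≠ 2 * m + 4 → R' i (i + 1) = |R i (i + 1)| := by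
    intro i hi
    have hv : ((i + 1 : Fin (2 * m + 5)) : ℕ) = (i : ℕ) + 1 := by rw [succ_val, if_neg hi]
    have h1 : z (i + 1) = z i * sg (R i (i + 1)) := by
      simp only [hz]
      rw [hv, P, dif_pos i.2]
    simp only [hR']
    rw [h1]
    calc z i * (z i * sg (R i (i + 1))) * R i (i + 1)
        = (z i * z i) * (sg (R i (i + 1)) * R i (i + 1)) := by ring
      _ = _ := by rw [hzz, sg_mul, one_mul]
  set a : ℕ → ℝ := fun k => if h : k < 2 * m + 5 then
    Real.arccos |R ⟨k, h⟩ (⟨k, h⟩ + 1)| else 0 with ha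
  have hpath : ∀ (i j : ℕ) (hij : i ≤ j) (hj : j < 2 * m + 5),
      Real.arccos (R' ⟨i, lt_of_le_of_lt hij hj⟩ ⟨j, hj⟩) ≤ ∑ k ∈ Ico i j, a k := by
    intro i j hij
    induction j, hij using Nat.le_induction with
    | base =>
      intro hj
      rw [hd', Real.arccos_one]
      simp
    | succ j hij ih =>
      intro hj
      have hj' : j < 2 * m + 5 := by omega
      have h1 := hA ⟨i, lt_of_le_of_lt hij hj'⟩ ⟨j, hj'⟩ ⟨j + 1, hj⟩
      have h2 := ih hj'
      have h3 := hstep ⟨j, hj'⟩ (by simp only; omega)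
      have h4 : (⟨j, hj'⟩ + 1 : Fin (2 * m + 5)) = ⟨j + 1, hj⟩ := by
        apply Fin.ext
        rw [succ_val, if_neg (by simp only; omega)]
      rw [sum_Ico_succ_top hij]
      have h5 : a j = Real.arccos (R' ⟨j, hj'⟩ ⟨j + 1, hj⟩) := by
        simp only [ha]
        rw [dif_pos hj', ← h3, h4]
      rw [h5]
      linarith
  have htot : ∑ i, Real.arccos |R i (i + 1)| = ∑ k ∈ range (2 * m + 5), a k := by
    rw [← Fin.sum_univ_eq_sum_range]
    refine sum_congr rfl fun i _ => ?_
    simp only [ha]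
    rw [dif_pos i.2]
  rw [htot, sum_range_succ]
  set l : Fin (2 * m + 5) := ⟨2 * m + 4, by omega⟩ with hl
  have hl1 : l + 1 = ⟨0, by omega⟩ := by
    apply Fin.ext
    rw [succ_val, if_pos rfl]
  have hlast : a (2 * m + 4) = Real.arccos |R l ⟨0, by omega⟩| := by
    simp only [ha]
    rw [dif_pos (by omega), ← hl1]
  have hz0 : z ⟨0, by omega⟩ = 1 := rfl
  have hRl : R' l ⟨0, by omega⟩ = z l * sg (R l ⟨0, by omega⟩) * |R l ⟨0, by omega⟩| := by
    simp only [hR']
    rw [hz0]
    have h1 := sg_mul (R l ⟨0, by omega⟩)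
    have h2 : sg (R l ⟨0, by omega⟩) * sg (R l ⟨0, by omega⟩) = 1 := by
      rcases sg_or (R l ⟨0, by omega⟩) with h | h <;> rw [h] <;> norm_num
    rw [← h1]
    calc z l * 1 * R l ⟨0, by omega⟩ = z l * 1 * R l ⟨0, by omega⟩ * 1 := by ring
      _ = z l * 1 * R l ⟨0, by omega⟩ *
          (sg (R l ⟨0, by omega⟩) * sg (R l ⟨0, by omega⟩)) := by rw [h2]
      _ = _ := by ring
  have hor : z l * sg (R l ⟨0, by omega⟩) = -1 ∨ z l * sg (R l ⟨0, by omega⟩) = 1 := by
    rcases hz1 l with h | h <;> rcases sg_or (R l ⟨0, by omega⟩) with h' | h' <;>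
      rw [h, h'] <;> norm_num
  rw [hlast]
  rcases hor with h | h
  · rw [h] at hRl
    have h1 := hpath 0 (2 * m + 4) (by omega) (by omega)
    rw [← range_eq_Ico] at h1
    have h2 : |R l ⟨0, by omega⟩| = -(R' l ⟨0, by omega⟩) := by rw [hRl]; ring
    have h5 : R' l ⟨0, by omega⟩ = R' ⟨0, by omega⟩ l := hP'.1 _ _
    rw [h2, Real.arccos_neg, h5]
    linarith
  · rw [h, one_mul] at hRl
    rw [← hRl]
    have key : ∀ (i j : ℕ) (hij : i < j) (hj : j < 2 * m + 5) (_ : j ≤ 4)
        (_ : i + 1 ≠ j) (_ : ¬ (i = 0 ∧ j = 4)),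
        z ⟨i, hij.trans hj⟩ = z ⟨j, hj⟩ →
        Real.pi ≤ ∑ k ∈ range (2 * m + 4), a k + Real.arccos (R' l ⟨0, by omega⟩) := by
      intro i j hij hj hj4 hne h04 hzij
      have h2 := hpath i j hij.le hj
      have h3 : R' ⟨i, hij.trans hj⟩ ⟨j, hj⟩ ≤ 0 := by
        simp only [hR']
        rw [hzij, hzz, one_mul]
        apply hn
        · intro h
          rw [Fin.mk.injEq] at h
          omega
        · intro h
          have h' := congrArg Fin.val h
          rw [succ_val] at h'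
          simp only at h'
          split_ifs at h' <;> omega
        · intro h
          have h' := congrArg Fin.val h
          rw [succ_val] at h'
          simp only at h'
          split_ifs at h' <;> omega
      have h4 := half_pi_le h3
      have h5 := hpath j (2 * m + 4) (by omega) (by omega)
      have h6 := hpath 0 i (by omega) (by omega)
      have h7 := hA ⟨j, hj⟩ l ⟨i, hij.trans hj⟩
      have h8 := hA l ⟨0, by omega⟩ ⟨i, hij.trans hj⟩
      have h9 : R' ⟨j, hj⟩ ⟨i, hij.trans hj⟩ = R' ⟨i, hij.trans hj⟩ ⟨j, hj⟩ := hP'.1 _ _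
      rw [h9] at h7
      have h10 : ∑ k ∈ range (2 * m + 4), a k = ∑ k ∈ Ico 0 i, a k + ∑ k ∈ Ico i j, a k +
          ∑ k ∈ Ico j (2 * m + 4), a k := by
        rw [sum_Ico_consecutive _ (Nat.zero_le i) hij.le,
          sum_Ico_consecutive _ (Nat.zero_le j) (by omega), range_eq_Ico]
      rw [h10]
      linarith
    by_cases h02 : z ⟨0, by omega⟩ = z ⟨2, by omega⟩
    · exact key 0 2 (by omega) (by omega) (by omega) (by omega) (by omega) h02
    by_cases h24 : z ⟨2, by omega⟩ = z ⟨4, by omega⟩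
    · exact key 2 4 (by omega) (by omega) (by omega) (by omega) (by omega) h24
    by_cases h14 : z ⟨1, by omega⟩ = z ⟨4, by omega⟩
    · exact key 1 4 (by omega) (by omega) (by omega) (by omega) (by omega) h14
    by_cases h13 : z ⟨1, by omega⟩ = z ⟨3, by omega⟩
    · exact key 1 3 (by omega) (by omega) (by omega) (by omega) (by omega) h13
    by_cases h03 : z ⟨0, by omega⟩ = z ⟨3, by omega⟩
    · exact key 0 3 (by omega) (by omega) (by omega) (by omega) (by omega) h03
    exfalso
    rcases hz1 ⟨0, by omega⟩ with p0 | p0 <;> rcases hz1 ⟨1, by omega⟩ with p1 | p1 <;>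
      rcases hz1 ⟨2, by omega⟩ with p2 | p2 <;> rcases hz1 ⟨3, by omega⟩ with p3 | p3 <;>
      rcases hz1 ⟨4, by omega⟩ with p4 | p4 <;>
      simp only [p0, p1, p2, p3, p4, not_true_eq_false] at h02 h24 h14 h13 h03

end E8h27.CB
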